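import Pool.Agent.Helper54.CG.Goals
import Pool.Agent.Helper83.Cusp.Vec

/-!
# CG: the goal `G_P2` (from a level to the plane curve)
-/

namespace Pool.Agent.Helper50.CG.P2

open MvPolynomial Pool.Agent.Helper16.Cusp
open Pool.Agent.Helper54.CG hiding Lev pull

theorem t (ha : G_P2a) (hb : G_P2b) (hc : G_P2c) : G_P2 := by
  classical
  intro F n κ τ hF
  obtain ⟨S0, hS0⟩ := hc F n κ τ hF
  obtain ⟨c, hcinj, hcu⟩ := hF.cusp
  obtain ⟨l, hl⟩ := Infinite.exists_notMem_finset (S0 ∪ Finset.univ.image fun i => (c i).2)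
  rw [Finset.mem_union, not_or] at hl
  have hl2 : ∀ i, (c i).2 ≠ l := fun i h => hl.2 (Finset.mem_image.2 ⟨i, Finset.mem_univ _, h⟩)
  have hz : ∀ i, ∃ z : ℂ, z ^ 2 = (c i).2 - l := fun i =>
    IsAlgClosed.exists_pow_nat_eq ((c i).2 - l) (by norm_num)
  choose z hz using hz
  have hz0 : ∀ i, z i ≠ 0 := by
    intro i h
    have h1 := hz i
    rw [h] at h1
    have h2 : (c i).2 = l := by
      have : (c i).2 - l = 0 := by rw [← h1]; norm_num
      exact sub_eq_zero.1 this
    exact hl2 i h2
  set v : Fin κ × Bool → V := fun q => ![(c q.1).1, 1, if q.2 then z q.1 else - z q.1] with hv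
  have hvn : ∀ q, v q ≠ 0 := by
    intro q h
    have h1 : v q 1 = 0 := by rw [h]; rfl
    have h2 : v q 1 = 1 := rfl
    rw [h2] at h1
    exact one_ne_zero h1
  have hhom : (dbl l F).IsHomogeneous n := ha F n l hF.homog
  have hcv : ∀ q, IsCuspVec (dbl l F) (v q) := by
    intro q
    refine hb F (c q.1).1 (c q.1).2 l _ (hcu q.1).1 (hl2 q.1) ?_
    split_ifs
    · exact hz q.1
    · rw [neg_sq]
      exact hz q.1
  have hinj : ∀ q q' : Fin κ × Bool, ∀ s : ℂ, v q = s • v q' → q = q' := by
    rintro ⟨i, e⟩ ⟨j, e'⟩ s h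
    have h1 : v (i, e) 1 = s * v (j, e') 1 := by rw [h]; rfl
    have h0 : v (i, e) 0 = s * v (j, e') 0 := by rw [h]; rfl
    have h2 : v (i, e) 2 = s * v (j, e') 2 := by rw [h]; rfl
    have hs : s = 1 := by
      have a1 : v (i, e) 1 = 1 := rfl
      have a2 : v (j, e') 1 = 1 := rfl
      rw [a1, a2, mul_one] at h1
      exact h1.symm
    subst hs
    rw [one_mul] at h0 h2
    have b0 : (c i).1 = (c j).1 := h0
    have b2 : (if e then z i else - z i) = if e' then z j else - z j := h2
    have b3 : z i ^ 2 = z j ^ 2 := by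
      have a1 : (if e then z i else - z i) ^ 2 = z i ^ 2 := by
        split_ifs
        · rfl
        · rw [neg_sq]
      have a2 : (if e' then z j else - z j) ^ 2 = z j ^ 2 := by
        split_ifs
        · rfl
        · rw [neg_sq]
      rw [← a1, b2, a2]
    have b4 : (c i).2 = (c j).2 := by
      rw [hz i, hz j] at b3
      exact sub_left_inj.1 b3
    have hij : i = j := hcinj (Prod.ext b0 b4)
    subst hij
    have h2z : z i ≠ - z i := by
      intro h
      have : 2 * z i = 0 := by linear_combination h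
      rcases mul_eq_zero.1 this with h | h
      · norm_num at h
      · exact hz0 i h
    cases e <;> cases e'
    · rfl
    · exact absurd (by simpa using b2 : - z i = z i).symm h2z
    · exact absurd (by simpa using b2 : z i = - z i) h2z
    · rfl
  refine ⟨dbl l F, hhom, hS0 l hl.1,
    Finset.univ.image fun q => Projectivization.mk ℂ (v q) (hvn q), ?_, ?_⟩
  · intro p hp
    obtain ⟨q, -, rfl⟩ := Finset.mem_image.1 hp
    obtain ⟨s, hs⟩ := Projectivization.exists_smul_eq_mk_rep ℂ (v q) (hvn q)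
    unfold IsOrdinaryCusp
    rw [← hs]
    exact IsCuspVec.smul hhom (hcv q) s.ne_zero
  · rw [Finset.card_image_of_injective, Finset.card_univ, Fintype.card_prod, Fintype.card_fin,
      Fintype.card_bool, mul_comm]
    intro q q' hq
    obtain ⟨s, hs⟩ := (Projectivization.mk_eq_mk_iff' ℂ _ _ (hvn q) (hvn q')).1 hq
    exact hinj q q' s hs.symm

end Pool.Agent.Helper50.CG.P2
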